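import Pool.Agent.H82.BO.Targets

/-!
# Points at large distance (row FAR)
-/

set_option autoImplicit false

open Finset Pool.Agent.H82.BO

namespace Pool.Agent.H69.BO

theorem pf_FAR : T_FAR := by
  intro n z h V
  induction z with
  | zero =>
    intro Y _ _
    exact ⟨fun a => a.elim0, fun a => a.elim0, fun a => a.elim0⟩
  | succ z ih =>
    intro Y hV hY
    classical
    have hV0 : 0 ≤ V := le_trans (Nat.cast_nonneg _) (hV fun _ => false)
    have hne : Y.Nonempty := by
      rw [← Finset.card_pos]
      have h1 : (0 : ℝ) < (Y.card : ℝ) := lt_of_le_of_lt (by positivity) hY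
      exact_mod_cast h1
    obtain ⟨y0, hy0⟩ := hne
    have hsplit := Finset.card_filter_add_card_filter_not
      (s := Y) (fun y' => h ≤ (hammingDist y0 y' : ℝ))
    have hsmall : ((Y.filter fun y' => ¬ h ≤ (hammingDist y0 y' : ℝ)).card : ℝ) ≤ V := by
      refine le_trans ?_ (hV y0)
      rw [Nat.card_eq_fintype_card, Fintype.card_subtype]
      have h2 : (Y.filter fun y' => ¬ h ≤ (hammingDist y0 y' : ℝ)) ⊆
          Finset.univ.filter fun y' => (hammingDist y0 y' : ℝ) < h := by
        intro y' hy'
        rw [Finset.mem_filter] at hy' ⊢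
        exact ⟨Finset.mem_univ _, not_le.1 hy'.2⟩
      exact_mod_cast Finset.card_le_card h2
    have hsum : ((Y.filter fun y' => h ≤ (hammingDist y0 y' : ℝ)).card : ℝ) +
        ((Y.filter fun y' => ¬ h ≤ (hammingDist y0 y' : ℝ)).card : ℝ) = (Y.card : ℝ) := by
      exact_mod_cast hsplit
    have hbig : (z : ℝ) * V < ((Y.filter fun y' => h ≤ (hammingDist y0 y' : ℝ)).card : ℝ) := by
      push_cast at hY
      nlinarith
    obtain ⟨y, hy1, hy2⟩ := ih _ hV hbig
    refine ⟨Fin.cons y0 y, ?_, ?_⟩
    · intro a
      refine Fin.cases ?_ (fun i => ?_) a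
      · rw [Fin.cons_zero]
        exact hy0
      · rw [Fin.cons_succ]
        exact (Finset.mem_filter.1 (hy1 i)).1
    · intro a b
      refine Fin.cases ?_ (fun i => ?_) a
      · refine Fin.cases ?_ (fun j => ?_) b
        · intro hab
          exact absurd rfl hab
        · intro _
          rw [Fin.cons_zero, Fin.cons_succ]
          exact (Finset.mem_filter.1 (hy1 j)).2
      · refine Fin.cases ?_ (fun j => ?_) b
        · intro _
          rw [Fin.cons_zero, Fin.cons_succ, hammingDist_comm]
          exact (Finset.mem_filter.1 (hy1 i)).2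
        · intro hab
          rw [Fin.cons_succ, Fin.cons_succ]
          exact hy2 i j fun hij => hab (by rw [hij])

end Pool.Agent.H69.BO
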