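import Pool.Agent.H17.BO.TargetsC

/-!
# (RES) functionals supported on a plane (MP_70ba79_ag, board `bo_modules`)
-/

set_option autoImplicit false

namespace Pool.Agent.H69.BO

open MvPolynomial SC Pool.Agent.H27.LV Pool.Agent.H17.VG Pool.Agent.H17.BO

section

variable {k L : Type} [Field k] [Field L] [Algebra k L] {n e : ℕ}

/-- `fnl y` as a linear map -/
private noncomputable def fl {d : ℕ} (y : Mon (n + 1) d → L) :
    MvPolynomial (Fin (n + 1)) L →ₗ[L] L where
  toFun := fnl y
  map_add' G H := by
    unfold fnl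
    rw [← Finset.sum_add_distrib]
    refine Finset.sum_congr rfl fun M _ => ?_
    rw [coeff_add]
    ring
  map_smul' c G := by
    unfold fnl
    rw [RingHom.id_apply, smul_eq_mul, Finset.mul_sum]
    refine Finset.sum_congr rfl fun M _ => ?_
    rw [coeff_smul, smul_eq_mul]
    ring

private theorem fl_apply {d : ℕ} (y : Mon (n + 1) d → L) (G : MvPolynomial (Fin (n + 1)) L) :
    fl y G = fnl y G := rfl

/-- the linear form -/
private noncomputable def lf (s : Fin 3 → Fin (n + 1)) (P : Fin (n + 1) → Fin 3 → k)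
    (j : Fin (n + 1)) : MvPolynomial (Fin (n + 1)) L :=
  ∑ t, C (algebraMap k L (P j t)) * X (s t)

private theorem up_frm_single (M : Mon (n + 1) e) :
    up L (frm (Pi.single M 1 : Mon (n + 1) e → k)) = mono L M.1 := by
  classical
  unfold up frm
  rw [Finset.sum_eq_single M (by
    intro b _ hb
    rw [Pi.single_eq_of_ne hb, C_0, zero_mul]) (by simp)]
  rw [Pi.single_eq_same, C_1, one_mul]
  unfold mono
  rw [map_monomial, map_one]

private theorem step (y : Mon (n + 1) (e + 1) → L) (s : Fin 3 → Fin (n + 1))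
    (P : Fin (n + 1) → Fin 3 → k)
    (h : ∀ (Q : Mon (n + 1) e → k) (j : Fin (n + 1)), fnl y (X j * up L (frm Q)) =
        ∑ t, algebraMap k L (P j t) * fnl y (X (s t) * up L (frm Q)))
    (j : Fin (n + 1)) (R : MvPolynomial (Fin (n + 1)) L) (hR : R.IsHomogeneous e) :
    fl y (X j * R) = fl y (lf (L := L) s P j * R) := by
  have h1 : ∀ M : Mon (n + 1) e, fl y (X j * mono L M.1) =
      fl y (lf (L := L) s P j * mono L M.1) := by
    intro M
    have h2 := h (Pi.single M 1) j
    rw [up_frm_single] at h2
    rw [fl_apply, h2]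
    unfold lf
    rw [Finset.sum_mul, map_sum]
    refine Finset.sum_congr rfl fun t _ => ?_
    rw [mul_assoc, ← smul_eq_C_mul, map_smul, smul_eq_mul, fl_apply]
  rw [← frm_coeff hR]
  unfold frm
  rw [Finset.mul_sum, Finset.mul_sum, map_sum, map_sum]
  refine Finset.sum_congr rfl fun M _ => ?_
  rw [← smul_eq_C_mul, mul_smul_comm, mul_smul_comm, map_smul, map_smul, h1 M]

private theorem mono_step (y : Mon (n + 1) (e + 1) → L) (s : Fin 3 → Fin (n + 1))
    (P : Fin (n + 1) → Fin 3 → k)
    (h : ∀ (j : Fin (n + 1)) (R : MvPolynomial (Fin (n + 1)) L), R.IsHomogeneous e →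
      fl y (X j * R) = fl y (lf (L := L) s P j * R)) :
    ∀ (d r : ℕ), d + r = e + 1 → ∀ m : Fin (n + 1) →₀ ℕ, m.degree = d →
      ∀ R : MvPolynomial (Fin (n + 1)) L, R.IsHomogeneous r →
      fl y (monomial m 1 * R) =
        fl y (aeval (lf (k := k) (L := L) s P) (monomial m (1 : L)) * R) := by
  intro d
  induction d with
  | zero =>
    intro r _ m hm R _
    rw [Finsupp.degree_eq_zero_iff] at hm
    rw [hm]
    simp
  | succ d ih =>
    intro r hr m hm R hR
    have hm0 : m ≠ 0 := by
      rintro rfl
      simp at hm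
    obtain ⟨j, hj⟩ := Finsupp.ne_iff.1 hm0
    obtain ⟨m', hm'⟩ : ∃ m' : Fin (n + 1) →₀ ℕ, m = Finsupp.single j 1 + m' := by
      refine ⟨m - Finsupp.single j 1, (add_tsub_cancel_of_le ?_).symm⟩
      rw [Finsupp.single_le_iff]
      exact Nat.one_le_iff_ne_zero.2 hj
    have hd : m'.degree = d := by
      rw [hm', map_add, Finsupp.degree_single] at hm
      omega
    have e1 : monomial m (1 : L) = X j * monomial m' 1 := by
      rw [hm', X, monomial_mul, one_mul]
    have hlf : ∀ j, (lf (k := k) (L := L) s P j).IsHomogeneous 1 := by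
      intro j
      unfold lf
      refine IsHomogeneous.sum _ _ _ fun t _ => ?_
      have := (isHomogeneous_C (Fin (n + 1)) (algebraMap k L (P j t))).mul
        (isHomogeneous_X L (s t))
      rwa [zero_add] at this
    have hA : (aeval (lf (k := k) (L := L) s P) (monomial m' (1 : L))).IsHomogeneous d := by
      have h1 := (isHomogeneous_monomial (R := L) (1 : L) hd).aeval
        (lf (k := k) (L := L) s P) (n := 1) hlf
      rwa [one_mul] at h1
    rw [e1]
    have e2 : (X j * monomial m' (1 : L)) * R = monomial m' (1 : L) * (X j * R) := by ring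
    rw [e2, ih (r + 1) (by omega) m' hd (X j * R) (by
      have h1 := (isHomogeneous_X L j).mul hR
      have h2 : 1 + r = r + 1 := add_comm 1 r
      rwa [h2] at h1)]
    have e3 : aeval (lf (k := k) (L := L) s P) (monomial m' (1 : L)) * (X j * R) =
        X j * (aeval (lf (k := k) (L := L) s P) (monomial m' (1 : L)) * R) := by ring
    rw [e3, h j _ (by
      have h2 := hA.mul hR
      have : d + r = e := by omega
      rwa [this] at h2)]
    have e4 : aeval (lf (k := k) (L := L) s P) (X j * monomial m' (1 : L)) =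
        lf (k := k) (L := L) s P j * aeval (lf (k := k) (L := L) s P) (monomial m' (1 : L)) := by
      rw [map_mul, aeval_X]
    rw [e4, mul_assoc]

private theorem key (y : Mon (n + 1) (e + 1) → L) (s : Fin 3 → Fin (n + 1))
    (P : Fin (n + 1) → Fin 3 → k)
    (h : ∀ (j : Fin (n + 1)) (R : MvPolynomial (Fin (n + 1)) L), R.IsHomogeneous e →
      fl y (X j * R) = fl y (lf (L := L) s P j * R))
    (G : MvPolynomial (Fin (n + 1)) L) (hG : G.IsHomogeneous (e + 1)) :
    fl y G = fl y (aeval (lf (k := k) (L := L) s P) G) := by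
  have h1 : G = ∑ M : Mon (n + 1) (e + 1), coeff (fs M.1) G • monomial (fs M.1) (1 : L) := by
    conv_lhs => rw [← frm_coeff hG]
    unfold frm mono
    refine Finset.sum_congr rfl fun M _ => ?_
    rw [smul_eq_C_mul]
  have h2 : ∀ M : Mon (n + 1) (e + 1), fl y (monomial (fs M.1) (1 : L)) =
      fl y (aeval (lf (k := k) (L := L) s P) (monomial (fs M.1) (1 : L))) := by
    intro M
    have h3 := mono_step y s P h (e + 1) 0 rfl (fs M.1) (by
      unfold fs
      rw [Finsupp.degree_eq_sum]
      exact M.2) 1 (isHomogeneous_one _ _)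
    rwa [mul_one, mul_one] at h3
  rw [h1, map_sum, map_sum, map_sum]
  refine Finset.sum_congr rfl fun M _ => ?_
  rw [map_smul, map_smul, map_smul, h2 M]

end

theorem pf_RES : T_RES := by
  intro k L _ _ _ n e y s P hs hP h
  refine ⟨fun b M => fnl (y b) (rename s (mono L M.1 : MvPolynomial (Fin 3) L)), ?_⟩
  intro b G hG
  have h1 := key (y b) s P (fun j R hR => step (y b) s P (fun Q j => h Q b j) j R hR) G hG
  obtain ⟨G', hG'⟩ : ∃ G' : MvPolynomial (Fin 3) L, G' =
      aeval (fun j => ∑ t, C (algebraMap k L (P j t)) * X t :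
        Fin (n + 1) → MvPolynomial (Fin 3) L) G := ⟨_, rfl⟩
  rw [← hG']
  have hG'h : G'.IsHomogeneous (e + 1) := by
    rw [hG']
    have h2 := hG.aeval (fun j => ∑ t, C (algebraMap k L (P j t)) * X t :
        Fin (n + 1) → MvPolynomial (Fin 3) L) (n := 1) (fun j => by
      refine IsHomogeneous.sum _ _ _ fun t _ => ?_
      have := (isHomogeneous_C (Fin 3) (algebraMap k L (P j t))).mul (isHomogeneous_X L t)
      rwa [zero_add] at this)
    rwa [one_mul] at h2
  have h3 : aeval (lf (k := k) (L := L) s P) G = rename s G' := by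
    rw [hG']
    have h4 : (rename s).comp (aeval (fun j => ∑ t, C (algebraMap k L (P j t)) * X t :
        Fin (n + 1) → MvPolynomial (Fin 3) L)) =
        aeval (lf (k := k) (L := L) s P) := by
      refine MvPolynomial.algHom_ext fun j => ?_
      rw [AlgHom.comp_apply, aeval_X, aeval_X, map_sum]
      unfold lf
      refine Finset.sum_congr rfl fun t _ => ?_
      rw [map_mul, rename_C, rename_X]
    rw [← h4]
    rfl
  rw [← fl_apply, h1, h3]
  have h5 : rename s G' = ∑ M : Mon 3 (e + 1), coeff (fs M.1) G' •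
      rename s (mono L M.1 : MvPolynomial (Fin 3) L) := by
    conv_lhs => rw [← frm_coeff hG'h]
    unfold frm
    rw [map_sum]
    refine Finset.sum_congr rfl fun M _ => ?_
    rw [map_mul, rename_C, smul_eq_C_mul]
  rw [h5, map_sum]
  unfold fnl
  refine Finset.sum_congr rfl fun M _ => ?_
  rw [map_smul, smul_eq_mul, mul_comm]
  rfl

end Pool.Agent.H69.BO
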