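import Pool.Agent.H17.BO.TargetsE
import Pool.Agent.H37.BO.NZ3
import Pool.Agent.H27.LV.Curve

/-!
# (TCO) the parameter at the good places (MP_70ba79_ag, board `bo_modules`)
-/

set_option autoImplicit false

namespace Pool.Agent.H69.BO

open MvPolynomial SC Pool.Agent.H27.LV Pool.Agent.H17.VG Pool.Agent.H17.BO

/-- forms with coefficients in `k`, at linear forms with integral coefficients -/
private theorem int_aeval {k L : Type} [Field k] [Field L] [Algebra k L] (w : DV k L) {n : ℕ}
    (f : Fin (n + 1) → MvPolynomial (Fin 3) L) (hf : ∀ i m, ge w 0 (coeff m (f i)))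
    (F : MvPolynomial (Fin (n + 1)) k) : ∀ m, ge w 0 (coeff m (aeval f F)) := by
  classical
  have hmul : ∀ G H : MvPolynomial (Fin 3) L, (∀ m, ge w 0 (coeff m G)) →
      (∀ m, ge w 0 (coeff m H)) → ∀ m, ge w 0 (coeff m (G * H)) := by
    intro G H hG hH m
    rw [coeff_mul]
    refine ge_sum w _ _ _ fun i _ => ?_
    have := (hG i.1).mul (hH i.2)
    rwa [add_zero] at this
  induction F using MvPolynomial.induction_on with
  | C a =>
    intro m
    rw [aeval_C, MvPolynomial.algebraMap_apply, coeff_C]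
    split_ifs
    · exact ge_const w a
    · exact ge_zero w 0
  | add p q hp hq =>
    intro m
    rw [map_add, coeff_add]
    exact (hp m).add (hq m)
  | mul_X p i hp =>
    rw [map_mul, aeval_X]
    exact hmul _ _ hp (hf i)

/-- the elements of `GD` form a subring -/
private theorem gd_subring {k K L : Type} [Field k] [Field K] [Field L] [Algebra k K]
    [Algebra k L] [Algebra K L] (v : DV k K) (w : DV k L) (e : ℕ) (D : Derivation k K K)
    (D' : Derivation k L L) (h1 : ∀ a : K, ge v 0 a → GD v w e D D' (algebraMap K L a))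
    (h2 : ∀ z z' : L, GD v w e D D' z → GD v w e D D' z' →
      GD v w e D D' (z + z') ∧ GD v w e D D' (z * z') ∧ GD v w e D D' (-z)) :
    ∃ S : Subring L, ∀ z, z ∈ S ↔ GD v w e D D' z := by
  refine ⟨{ carrier := {z | GD v w e D D' z}
            mul_mem' := fun {a b} ha hb => (h2 a b ha hb).2.1
            one_mem' := by
              have := h1 1 (ge_one v)
              rwa [map_one] at this
            add_mem' := fun {a b} ha hb => (h2 a b ha hb).1
            zero_mem' := by
              have := h1 0 (ge_zero v 0)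
              rwa [map_zero] at this
            neg_mem' := fun {a} ha => (h2 a a ha ha).2.2 }, fun z => Iff.rfl⟩

/-- uniqueness of the coordinates -/
private theorem coord_unique {L : Type} [Field L] (y : Fin 3 → Fin 3 → L)
    (hy : (Matrix.of y).det ≠ 0) (α β : Fin 3 → L)
    (h : ∀ a, ∑ j, α j * y j a = ∑ j, β j * y j a) : α = β := by
  have h1 : Matrix.vecMul α (Matrix.of y) = Matrix.vecMul β (Matrix.of y) := by
    funext a
    exact h a
  exact Matrix.vecMul_injective_of_isUnit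
    ((Matrix.isUnit_iff_isUnit_det _).2 (isUnit_iff_ne_zero.2 hy)) h1

/-- Cramer's rule -/
private theorem cramer {L : Type} [Field L] (y : Fin 3 → Fin 3 → L) (β X : Fin 3 → L)
    (h : ∀ a, X a = ∑ j, β j * y j a) (j : Fin 3) :
    β j * (Matrix.of y).det = ∑ a, X a * (Matrix.adjugate (Matrix.of y)) a j := by
  have h1 : Matrix.vecMul X (Matrix.adjugate (Matrix.of y)) = (Matrix.of y).det • β := by
    have h2 : X = Matrix.vecMul β (Matrix.of y) := by
      funext a
      exact h a
    rw [h2, Matrix.vecMul_vecMul, Matrix.mul_adjugate, Matrix.vecMul_smul, Matrix.vecMul_one]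
  have h3 := congrFun h1 j
  rw [Pi.smul_apply, smul_eq_mul] at h3
  rw [mul_comm, ← h3]
  rfl

private theorem adj_mem {L : Type} [Field L] (S : Subring L) (y : Fin 3 → Fin 3 → L)
    (h : ∀ i j, y i j ∈ S) : (Matrix.of y).det ∈ S ∧
      ∀ a j, (Matrix.adjugate (Matrix.of y)) a j ∈ S := by
  obtain ⟨M, hM⟩ : ∃ M : Matrix (Fin 3) (Fin 3) S, Matrix.of y = S.subtype.mapMatrix M :=
    ⟨Matrix.of fun i j => ⟨y i j, h i j⟩, by
      ext i j
      rfl⟩
  constructor
  · rw [hM, ← RingHom.map_det]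
    exact (M.det).2
  · intro a j
    rw [hM, ← RingHom.map_adjugate]
    exact (M.adjugate a j).2

private theorem bil_mem {L : Type} [Field L] (S : Subring L) (q : Matrix (Fin 3) (Fin 3) L)
    (hq : ∀ i j, q i j ∈ S) (u v : Fin 3 → L) (hu : ∀ i, u i ∈ S) (hv : ∀ i, v i ∈ S) :
    bil q u v ∈ S := by
  unfold bil
  exact S.sum_mem fun a _ => S.sum_mem fun b _ => S.mul_mem (S.mul_mem (hq a b) (hu a)) (hv b)

theorem pf_TCO (hGDR : T_GDR) (hUNT : T_UNT) : T_TCO := by
  intro k K L _ _ _ _ _ _ _ _ _ _ _ htr D D' hD hDD n d F x p hd hF hxp hFx s P q U V Y hC θ hθ α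
    hα v w e hvw hP hq hqd hU hV hY hθ0 hθ1 hord
  have : CharZero K := charZero_of_injective_algebraMap (algebraMap k K).injective
  have : CharZero L := charZero_of_injective_algebraMap (algebraMap K L).injective
  obtain ⟨g1, g2, g3, g4⟩ := hGDR k K L htr D D' hD hDD v w e hvw
  obtain ⟨S, hS⟩ := gd_subring v w e D D' g1 g2
  have hFK : (up K F).IsHomogeneous d := hF.map _
  obtain ⟨n1, n2, n3, -⟩ := Pool.Agent.H37.BO.pf_NZ3 K L n d (up K F) x hd hFK hFx s P q U V Y hC
    θ hθ
  obtain ⟨y, hy⟩ : ∃ y : Fin 3 → Fin 3 → L, ∀ j a, Polynomial.aeval θ (Y j a) = y j a :=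
    ⟨fun j a => Polynomial.aeval θ (Y j a), fun _ _ => rfl⟩
  have hyf : ∀ j, (fun a => Polynomial.aeval θ (Y j a)) = y j := fun j => funext fun a => hy j a
  have hyff : (fun j a => Polynomial.aeval θ (Y j a)) = y := funext fun j => hyf j
  obtain ⟨qL, hqL⟩ : ∃ qL : Matrix (Fin 3) (Fin 3) L, q.map (algebraMap K L) = qL := ⟨_, rfl⟩
  have hqLa : ∀ a b, qL a b = algebraMap K L (q a b) := fun a b => by
    rw [← hqL]
    rfl
  simp only [hyf, hqL] at n2 n3
  rw [hyff] at n1
  rw [hyff, hqL]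
  simp only [hy] at hα
  have hdvd : ∀ G : Polynomial K, U ∣ G → Polynomial.aeval θ G = 0 := by
    rintro G ⟨W, rfl⟩
    rw [map_mul, Polynomial.aeval_def, ← Polynomial.eval_map, hθ, zero_mul]
  -- the derivative
  have hder : (Polynomial.derivative (U.map (algebraMap K L))).eval θ ≠ 0 := by
    have h1 : (U.map (algebraMap K L)).Separable := hC.sep.map
    obtain ⟨a, b, hab⟩ := h1
    intro h
    have h2 := congrArg (Polynomial.eval θ) hab
    rw [Polynomial.eval_add, Polynomial.eval_mul, Polynomial.eval_mul, hθ, h, mul_zero, mul_zero,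
      add_zero, Polynomial.eval_one] at h2
    exact zero_ne_one h2
  obtain ⟨-, g5⟩ := g4 U θ hU hθ hθ0 hder hθ1
  have hyS : ∀ j a, y j a ∈ S := fun j a => by
    rw [← hy, hS]
    exact g5 (Y j a) (hY j a)
  have hVS : GD v w e D D' (Polynomial.aeval θ V) := g5 V hV
  have hgeS : ∀ z, z ∈ S → ge w 0 z := fun z hz => ((hS z).1 hz).1
  -- determinant
  have hdet1 : (Matrix.of y).det * Polynomial.aeval θ V = 1 := by
    have h := hdvd _ hC.inv
    rw [map_sub, map_one, map_mul, AlgHom.map_det] at h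
    have h2 : (Polynomial.aeval θ : Polynomial K →ₐ[K] L).mapMatrix (Matrix.of Y) =
        Matrix.of y := by
      ext j a
      exact hy j a
    rw [h2] at h
    exact sub_eq_zero.1 h
  obtain ⟨hdS, haS⟩ := adj_mem S y hyS
  have hV0 : Polynomial.aeval θ V ≠ 0 := right_ne_zero_of_mul (hdet1 ▸ one_ne_zero)
  have hdet0 : w.ord (Matrix.of y).det = 0 := by
    have h1 := w.ord_mul _ _ n1 hV0
    rw [hdet1, w.ord_one] at h1
    have h2 : 0 ≤ w.ord (Matrix.of y).det := (hgeS _ hdS).resolve_left n1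
    have h3 : 0 ≤ w.ord (Polynomial.aeval θ V) := hVS.1.resolve_left hV0
    omega
  -- the matrix
  have hgeK : ∀ a : K, ge v 0 a → ge w 0 (algebraMap K L a) := fun a ha => (g1 a ha).1
  have hqS : ∀ a b, qL a b ∈ S := fun a b => by
    rw [hqLa, hS]
    exact g1 _ (hq a b)
  have hqdet : qL.det = algebraMap K L q.det := by
    rw [← hqL, RingHom.map_det]
    rfl
  have hqd0 : qL.det ≠ 0 := by
    rw [hqdet]
    exact (map_ne_zero _).2 hC.det
  have hqd1 : w.ord qL.det = 0 := by
    rw [hqdet, hvw.2, hqd, mul_zero]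
  have hsym : qL.IsSymm := by
    unfold Matrix.IsSymm
    rw [← hqL, ← Matrix.transpose_map, hC.symm]
  -- the normalised coordinates
  obtain ⟨lam, hlam⟩ : ∃ lam : K, lam = v.unif ^ (poleOrder v x) := ⟨_, rfl⟩
  have hlam0 : lam ≠ 0 := by
    rw [hlam]
    exact pow_ne_zero _ v.unif_ne_zero
  have hlamo : v.ord lam = poleOrder v x := by
    rw [hlam, v.ord_unif_pow]
  have hlx : ∀ i, ge v 0 (lam * x i) := by
    intro i
    by_cases hi : x i = 0
    · left
      rw [hi, mul_zero]
    · right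
      rw [v.ord_mul _ _ hlam0 hi, hlamo]
      have h1 : (-(v.ord (x i))).toNat ≤ poleOrder v x :=
        Finset.le_sup (f := fun i => (-(v.ord (x i))).toNat) (Finset.mem_univ i)
      omega
  obtain ⟨lL, hlL⟩ : ∃ lL : L, lL = algebraMap K L lam := ⟨_, rfl⟩
  have hlL0 : lL ≠ 0 := by
    rw [hlL]
    exact (map_ne_zero _).2 hlam0
  obtain ⟨X', hX'⟩ : ∃ X' : Fin 3 → L, X' = fun a => lL * algebraMap K L (x (s a)) := ⟨_, rfl⟩
  have hX'a : ∀ a, X' a = lL * algebraMap K L (x (s a)) := fun a => by rw [hX']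
  have hX'S : ∀ a, X' a ∈ S := fun a => by
    rw [hX'a, hlL, ← map_mul, hS]
    exact g1 _ (hlx _)
  -- the form in three variables
  obtain ⟨f, hf⟩ : ∃ f : Fin (n + 1) → MvPolynomial (Fin 3) L,
    f = fun i => ∑ a, MvPolynomial.C (algebraMap K L (P i a)) * MvPolynomial.X a := ⟨_, rfl⟩
  have hfi : ∀ i m, ge w 0 (coeff m (f i)) := by
    intro i m
    rw [hf]
    show ge w 0 (coeff m (∑ a, MvPolynomial.C (algebraMap K L (P i a)) * MvPolynomial.X a))
    rw [coeff_sum]
    refine ge_sum w _ _ _ fun a _ => ?_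
    rw [coeff_C_mul]
    classical
    rw [coeff_X']
    split_ifs
    · rw [mul_one]
      exact hgeK _ (hP i a)
    · rw [mul_zero]
      exact ge_zero w 0
  have hfe : ∀ (z : Fin 3 → L), eval z (aeval f F) =
      aeval (fun i => ∑ a, algebraMap K L (P i a) * z a) F := by
    intro z
    have h1 : ((MvPolynomial.aeval z : MvPolynomial (Fin 3) L →ₐ[L] L).restrictScalars k).comp
        (aeval f) = aeval (fun i => ∑ a, algebraMap K L (P i a) * z a) := by
      refine MvPolynomial.algHom_ext fun i => ?_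
      rw [AlgHom.comp_apply, aeval_X, aeval_X, AlgHom.restrictScalars_apply, hf]
      show MvPolynomial.aeval z (∑ a, MvPolynomial.C (algebraMap K L (P i a)) *
        MvPolynomial.X a) = _
      rw [map_sum]
      refine Finset.sum_congr rfl fun a _ => ?_
      rw [map_mul, aeval_C, aeval_X]
      rfl
    rw [← h1]
    rfl
  have hGh : (aeval f F).IsHomogeneous d := by
    have h1 := hF.aeval f (n := 1) (fun i => by
      rw [hf]
      refine IsHomogeneous.sum _ _ _ fun a _ => ?_
      have := (isHomogeneous_C (Fin 3) (algebraMap K L (P i a))).mul (isHomogeneous_X L a)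
      rwa [zero_add] at this)
    rwa [one_mul] at h1
  have hup : ∀ (z : Fin (n + 1) → K), algebraMap K L (eval z (up K F)) =
      aeval (fun i => algebraMap K L (z i)) F := by
    intro z
    unfold up
    rw [eval_map, ← aeval_def, ← MvPolynomial.aeval_algebraMap_apply]
    rfl
  have hGy : ∀ j, eval (y j) (aeval f F) = 0 := by
    intro j
    rw [hfe]
    have h := hdvd _ (hC.pts j)
    unfold up at h
    rw [aeval_map_algebraMap] at h
    have h1 : ((Polynomial.aeval θ : Polynomial K →ₐ[K] L).restrictScalars k).comp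
        (aeval (fun i => ∑ a, Polynomial.C (P i a) * Y j a)) =
        aeval (fun i => ∑ a, algebraMap K L (P i a) * y j a) := by
      refine MvPolynomial.algHom_ext fun i => ?_
      rw [AlgHom.comp_apply, aeval_X, aeval_X, AlgHom.restrictScalars_apply, map_sum]
      refine Finset.sum_congr rfl fun a _ => ?_
      rw [map_mul, Polynomial.aeval_C, hy]
    rw [← h1]
    exact h
  have hGX : eval X' (aeval f F) = lL ^ d * algebraMap K L (eval x (up K F)) := by
    rw [hfe]
    have h1 : (fun i => ∑ a, algebraMap K L (P i a) * X' a) =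
        fun i => algebraMap K L (lam * x i) := by
      funext i
      rw [hC.plane i, Finset.mul_sum, map_sum]
      refine Finset.sum_congr rfl fun a _ => ?_
      rw [hX'a, hlL, map_mul, map_mul]
      ring
    rw [h1, ← hup, Pool.Agent.H37.BO.eval_hom_mul hFK, map_mul, map_pow, hlL]
  have hGX0 : eval X' (aeval f F) ≠ 0 := by
    rw [hGX]
    exact mul_ne_zero (pow_ne_zero _ hlL0) ((map_ne_zero _).2 hFx)
  have hGX1 : w.ord (eval X' (aeval f F)) = 0 := by
    rw [hGX, w.ord_mul _ _ (pow_ne_zero _ hlL0) ((map_ne_zero _).2 hFx), w.ord_pow, hlL, hvw.2,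
      hvw.2, hlamo, hord]
    ring
  have hbX : bil qL X' X' = 0 := by
    have h := congrArg (algebraMap K L) hC.on
    rw [map_zero] at h
    have h1 : bil qL X' X' = lL ^ 2 *
        algebraMap K L (∑ a, ∑ b, q a b * x (s a) * x (s b)) := by
      unfold bil
      rw [map_sum, Finset.mul_sum]
      refine Finset.sum_congr rfl fun a _ => ?_
      rw [map_sum, Finset.mul_sum]
      refine Finset.sum_congr rfl fun b _ => ?_
      rw [hX'a, hX'a, hqLa, map_mul, map_mul]
      ring
    rw [h1, h, mul_zero]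
  obtain ⟨u1, β, hβ, hβ0⟩ := hUNT k L w y qL d (aeval f F) X' hd hGh (int_aeval w f hfi F)
    (fun i j => hgeS _ (hyS i j)) n1 hdet0 (fun i j => hgeS _ (hqS i j)) hsym hqd0 hqd1 n2 hGy
    (fun i => hgeS _ (hX'S i)) hbX hGX0 hGX1
  have hβα : β = fun j => lL * α j := by
    refine coord_unique y n1 _ _ fun a => ?_
    rw [← hβ a, hX'a, hα a, Finset.mul_sum]
    refine Finset.sum_congr rfl fun j _ => ?_
    ring
  have hβj : ∀ j, β j = lL * α j := fun j => by rw [hβα]
  obtain ⟨b01, b02, b12⟩ : (bil qL (y 0) (y 1) ≠ 0 ∧ w.ord (bil qL (y 0) (y 1)) = 0) ∧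
      (bil qL (y 0) (y 2) ≠ 0 ∧ w.ord (bil qL (y 0) (y 2)) = 0) ∧
      (bil qL (y 1) (y 2) ≠ 0 ∧ w.ord (bil qL (y 1) (y 2)) = 0) :=
    ⟨u1 0 1 (by decide), u1 0 2 (by decide), u1 1 2 (by decide)⟩
  have ht : tco qL y α = tco qL y β := by
    unfold tco
    rw [hβj, hβj]
    have hα0 : α 0 ≠ 0 := by
      intro h
      apply (hβ0 0).1
      rw [hβj, h, mul_zero]
    have := b02.1
    field_simp
  have hbX2 : bil qL (fun a => ∑ j, β j * y j a) (fun a => ∑ j, β j * y j a) = 0 := by
    have h1 : (fun a => ∑ j, β j * y j a) = X' := by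
      funext a
      exact (hβ a).symm
    rw [h1]
    exact hbX
  obtain ⟨-, o2, -, -, -⟩ := Pool.Agent.H37.BO.pf_ONE L qL y β hsym n2
    (fun i j hij => (u1 i j hij).1) (fun j => (hβ0 j).1) hbX2
  rw [ht]
  -- orders
  have hquot : ∀ a b c d : L, a ≠ 0 ∧ w.ord a = 0 → b ≠ 0 ∧ w.ord b = 0 → c ≠ 0 ∧ w.ord c = 0 →
      d ≠ 0 ∧ w.ord d = 0 → w.ord (-(a * b) / (c * d)) = 0 := by
    intro a b c d ha hb hc hd
    rw [w.ord_div (neg_ne_zero.2 (mul_ne_zero ha.1 hb.1)) (mul_ne_zero hc.1 hd.1), w.ord_neg,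
      w.ord_mul _ _ ha.1 hb.1, w.ord_mul _ _ hc.1 hd.1, ha.2, hb.2, hc.2, hd.2]
    norm_num
  refine ⟨hquot _ _ _ _ b12 (hβ0 1) b02 (hβ0 0), ?_, ?_⟩
  · rw [o2]
    exact hquot _ _ _ _ b01 (hβ0 1) b02 (hβ0 2)
  · have hinv : ∀ z, z ∈ S → z ≠ 0 → w.ord z = 0 → z⁻¹ ∈ S := fun z hz hz0 hz1 =>
      (hS _).2 (g3 z ((hS z).1 hz) hz0 hz1)
    have hβS : ∀ j, β j ∈ S := by
      intro j
      have h1 := cramer y β X' hβ j
      have h2 : β j = (∑ a, X' a * (Matrix.adjugate (Matrix.of y)) a j) *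
          ((Matrix.of y).det)⁻¹ := by
        rw [← h1, mul_assoc, mul_inv_cancel₀ n1, mul_one]
      rw [h2]
      exact S.mul_mem (S.sum_mem fun a _ => S.mul_mem (hX'S a) (haS a j))
        (hinv _ hdS n1 hdet0)
    have hbS : ∀ i j, bil qL (y i) (y j) ∈ S := fun i j =>
      bil_mem S qL hqS _ _ (hyS i) (hyS j)
    have htS : tco qL y β ∈ S := by
      have h1 : tco qL y β = -(bil qL (y 1) (y 2) * β 1) *
          ((bil qL (y 0) (y 2))⁻¹ * (β 0)⁻¹) := by
        unfold tco
        rw [div_eq_mul_inv, mul_inv]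
      rw [h1]
      exact S.mul_mem (S.neg_mem (S.mul_mem (hbS 1 2) (hβS 1)))
        (S.mul_mem (hinv _ (hbS 0 2) b02.1 b02.2) (hinv _ (hβS 0) (hβ0 0).1 (hβ0 0).2))
    exact ((hS _).1 htS).2

end Pool.Agent.H69.BO
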